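import Pool.Agent.Lib.MP_144d21_co.XU.Iface

/-!
# Module NUM: degree and coefficients of the product
-/

set_option autoImplicit false

namespace Pool.Agent.Xu.H23

open Polynomial

theorem top_coeff (l : List ℤ) :
    ((l.map fun r => (X - C r : ℤ[X])).prod).Monic ∧
    ((l.map fun r => (X - C r : ℤ[X])).prod).natDegree = l.length ∧
    (∀ i, l.length = i + 1 → ((l.map fun r => (X - C r : ℤ[X])).prod).coeff i = - l.sum) ∧
    (∀ i, l.length = i + 2 → 2 * ((l.map fun r => (X - C r : ℤ[X])).prod).coeff i =
      l.sum ^ 2 - (l.map fun r => r ^ 2).sum) ∧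
    (l.length = 1 → l.sum ^ 2 = (l.map fun r => r ^ 2).sum) := by
  induction l with
  | nil => simp
  | cons r l ih =>
    obtain ⟨h1, h2, h3, h4, h5⟩ := ih
    simp only [List.map_cons, List.prod_cons, List.length_cons, List.sum_cons]
    generalize hP : (l.map fun r => (X - C r : ℤ[X])).prod = P at *
    have htop : P.coeff l.length = 1 := by rw [← h2]; exact h1
    have hc : ∀ i, ((X - C r) * P).coeff (i + 1) = P.coeff i - r * P.coeff (i + 1) := by
      intro i
      rw [sub_mul, coeff_sub, coeff_X_mul, coeff_C_mul]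
    have hc0 : ((X - C r) * P).coeff 0 = - (r * P.coeff 0) := by
      rw [sub_mul, coeff_sub, coeff_X_mul_zero, coeff_C_mul, zero_sub]
    refine ⟨(monic_X_sub_C r).mul h1, ?_, ?_, ?_, ?_⟩
    · rw [(monic_X_sub_C r).natDegree_mul h1, natDegree_X_sub_C, h2]; ring
    · intro i hi
      have hi' : l.length = i := by omega
      cases i with
      | zero =>
        have hl : l = [] := List.length_eq_zero_iff.1 hi'
        rw [hi'] at htop
        rw [hc0, htop, hl]; simp
      | succ i =>
        rw [hi'] at htop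
        rw [hc, h3 i hi', htop]; ring
    · intro i hi
      have hi' : l.length = i + 1 := by omega
      cases i with
      | zero =>
        have e3 := h3 0 hi'
        have e5 := h5 (by omega)
        rw [hc0, e3, ← e5]; ring
      | succ i =>
        have e3 := h3 (i + 1) hi'
        have e4 := h4 i (by omega)
        rw [hc, e3]
        linear_combination e4
    · intro hi
      have hl : l = [] := List.length_eq_zero_iff.1 (by omega)
      rw [hl]; simp

theorem num : NumS := by
  intro P r0 r1 a b hP
  have hl : P = ((List.replicate r0 (0 : ℤ) ++ List.replicate r1 1 ++ List.replicate a 2 ++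
      List.replicate b 3).map fun r => (X - C r : ℤ[X])).prod := by
    rw [hP]
    simp only [List.map_append, List.map_replicate, List.prod_append, List.prod_replicate, map_zero,
      sub_zero]
  obtain ⟨-, h2, h3, h4, -⟩ := top_coeff (List.replicate r0 (0 : ℤ) ++ List.replicate r1 1 ++
    List.replicate a 2 ++ List.replicate b 3)
  rw [← hl] at h2 h3 h4
  simp only [List.length_append, List.length_replicate, List.sum_append, List.sum_replicate,
    List.map_append, List.map_replicate, nsmul_eq_mul] at h2 h3 h4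
  refine ⟨h2, ?_, ?_, ?_, ?_, ?_, ?_, ?_, ?_⟩
  · intro h
    rw [h3 (P.natDegree - 1) (by omega)]
    push_cast; ring
  · intro h
    rw [h4 (P.natDegree - 2) (by omega)]
    push_cast; ring
  · intro h
    obtain ⟨k, rfl⟩ : ∃ k, r0 = k + 2 := ⟨r0 - 2, by omega⟩
    have e : P = X ^ 2 * (X ^ k * (X - C 1) ^ r1 * (X - C 2) ^ a * (X - C 3) ^ b) := by
      rw [hP]; ring
    rw [e, derivative_mul]
    simp
  · rintro rfl
    rw [hP]
    simp only [eval_mul, eval_pow, eval_X, eval_sub, eval_C, pow_zero, one_mul]
    norm_num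
  · intro h
    obtain ⟨k, rfl⟩ : ∃ k, r1 = k + 2 := ⟨r1 - 2, by omega⟩
    have e : P = (X - C 1) ^ 2 * (X ^ r0 * (X - C 1) ^ k * (X - C 2) ^ a * (X - C 3) ^ b) := by
      rw [hP]; ring
    rw [e, derivative_mul, derivative_pow]
    simp
  · rintro rfl
    rw [hP]
    simp only [eval_mul, eval_pow, eval_X, eval_sub, eval_C, pow_zero, one_mul]
    norm_num
  · rintro rfl rfl
    have e : P = (X - C 1) * (X * (X - C 2) ^ a * (X - C 3) ^ b) := by
      rw [hP]; ring
    rw [e, derivative_mul]
    have e1 : (derivative (X - C 1 : ℤ[X])) = 1 := by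
      rw [derivative_sub, derivative_X, derivative_C, sub_zero]
    rw [e1, eval_add, eval_mul, eval_mul]
    simp only [eval_mul, eval_pow, eval_X, eval_sub, eval_C, eval_one]
    have e2 : (1 - 1 : ℤ) = 0 := by norm_num
    have e3 : (1 - 2 : ℤ) = -1 := by norm_num
    have e4 : (1 - 3 : ℤ) = (-1) * 2 := by norm_num
    rw [e2, e3, e4, mul_pow]
    have e5 : ((-1 : ℤ) ^ a) * (-1) ^ a = 1 := by rw [← mul_pow]; norm_num
    have e6 : ((-1 : ℤ) ^ b) * (-1) ^ b = 1 := by rw [← mul_pow]; norm_num
    rw [pow_add, pow_add]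
    linear_combination (2 : ℤ) ^ b * (-1) ^ b * (-1) ^ b * e5 + (2 : ℤ) ^ b * e6
  · rintro rfl rfl
    rw [hP]
    simp only [eval_mul, eval_pow, eval_X, eval_sub, eval_C]
    norm_num

end Pool.Agent.Xu.H23
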